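import Pool.Agent.Work.MP_48678a_t6.Defs

/-!
# Block BIJ: few cells near fractions
-/

set_option autoImplicit false

namespace MahlerT6

open Finset

namespace BIJ

/-- truncation of the last digits -/
lemma trunc (w a b : ℕ) (h : a ≤ b) :
    |(w : ℝ) / 3 ^ b - ((w / 3 ^ (b - a) : ℕ) : ℝ) / 3 ^ a| ≤ 1 / 3 ^ a := by
  obtain ⟨t, ht⟩ : ∃ t, t = w / 3 ^ (b - a) := ⟨_, rfl⟩
  rw [← ht]
  have h3 : (0 : ℝ) < 3 ^ (b - a) := by positivity
  have h3a : (0 : ℝ) < 3 ^ a := by positivity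
  have h1 : t * 3 ^ (b - a) ≤ w := by rw [ht]; exact Nat.div_mul_le_self _ _
  have h2 : w < (t + 1) * 3 ^ (b - a) := by
    rw [ht]
    have := Nat.lt_div_mul_add (a := w) (b := 3 ^ (b - a)) (by positivity)
    calc w < w / 3 ^ (b - a) * 3 ^ (b - a) + 3 ^ (b - a) := this
      _ = _ := by ring
  have h1' : (t : ℝ) * 3 ^ (b - a) ≤ w := by exact_mod_cast h1
  have h2' : (w : ℝ) < (t + 1) * 3 ^ (b - a) := by exact_mod_cast h2
  have hb : (3 : ℝ) ^ b = 3 ^ a * 3 ^ (b - a) := by rw [← pow_add]; congr 1; omega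
  have e1 : (w : ℝ) / 3 ^ b - t / 3 ^ a = (w - t * 3 ^ (b - a)) / (3 ^ a * 3 ^ (b - a)) := by
    rw [hb]
    field_simp
  rw [e1, abs_of_nonneg (by apply div_nonneg <;> [linarith; positivity]),
    div_le_div_iff₀ (by positivity) h3a]
  nlinarith

/-- natural numbers in a short interval -/
lemma count (S : Finset ℕ) (K : ℕ) (y : ℝ) (h : ∀ v ∈ S, |(v : ℝ) - y| ≤ K + 1) :
    #S ≤ 2 * K + 3 := by
  have h1 : #S ≤ #(Finset.Icc ⌈y - (K + 1)⌉ (⌈y - (K + 1)⌉ + (2 * K + 2))) := by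
    refine Finset.card_le_card_of_injOn (fun v : ℕ => (v : ℤ)) ?_ ?_
    · intro v hv
      have h2 := abs_le.1 (h v hv)
      rw [Finset.mem_coe, Finset.mem_Icc]
      constructor
      · rw [Int.ceil_le]
        push_cast
        linarith
      · have h3 := Int.le_ceil (y - (K + 1))
        have h4 : (v : ℝ) ≤ ((⌈y - (K + 1)⌉ + (2 * K + 2) : ℤ) : ℝ) := by
          push_cast
          linarith
        have h5 : ((v : ℤ) : ℝ) ≤ ((⌈y - (K + 1)⌉ + (2 * K + 2) : ℤ) : ℝ) := by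
          push_cast at h4 ⊢
          exact h4
        exact_mod_cast h5
    · intro a _ b _ hab
      have hab' : (a : ℤ) = (b : ℤ) := hab
      exact_mod_cast hab'
  refine h1.trans (le_of_eq ?_)
  rw [Int.card_Icc]
  omega

end BIJ

theorem p_BIJ : Stmt_DGC → Stmt_RAT → Stmt_BIJ := by
  intro hDGC hRAT K h i j hij
  obtain ⟨hD1, hD2, hD3⟩ := hDGC
  obtain ⟨B, hB⟩ : ∃ B, B = ({w ∈ Dig (2 * h + 1) | InB K h i j w} : Finset ℕ) := ⟨_, rfl⟩
  rw [← hB]
  obtain ⟨r, hr⟩ : ∃ r, r = h + i + j := ⟨_, rfl⟩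
  obtain ⟨V, hV⟩ : ∃ V, V = B.image (fun w => w / 3 ^ (2 * h - r)) := ⟨_, rfl⟩
  -- first map
  have h1 : #B ≤ 2 ^ (2 * h - r) * #V := by
    rw [hV]
    refine Finset.card_le_mul_card_image _ _ ?_
    intro v _
    refine (Finset.card_le_card ?_).trans (hD3 (r + 1) (2 * h - r) v)
    intro w hw
    rw [Finset.mem_filter, hB, Finset.mem_filter] at hw
    rw [Finset.mem_filter]
    refine ⟨?_, hw.2⟩
    rw [show r + 1 + (2 * h - r) = 2 * h + 1 by omega]
    exact hw.1.1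
  have hVD : ∀ v ∈ V, v ∈ Dig (r + 1) := by
    intro v hv
    rw [hV, Finset.mem_image] at hv
    obtain ⟨w, hw, rfl⟩ := hv
    rw [hB, Finset.mem_filter] at hw
    refine hD2 (r + 1) (2 * h - r) w ?_
    rw [show r + 1 + (2 * h - r) = 2 * h + 1 by omega]
    exact hw.1
  have h3r : (0 : ℝ) < 3 ^ r := by positivity
  -- the fractions
  have hex : ∀ v ∈ V, ∃ ρ : ℚ, ρ.den < 3 ^ (j + 1) ∧
      |(v : ℝ) / 3 ^ r - ρ| ≤ (K + 1) / 3 ^ r := by
    intro v hv
    rw [hV, Finset.mem_image] at hv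
    obtain ⟨w, hw, rfl⟩ := hv
    rw [hB, Finset.mem_filter] at hw
    obtain ⟨q, p, hq1, hq2, hpq⟩ := hw.2
    have hq0 : 0 < q := lt_of_lt_of_le (by positivity) hq1
    refine ⟨(p : ℚ) / (q : ℚ), ?_, ?_⟩
    · refine lt_of_le_of_lt ?_ hq2
      have h2 : (((p : ℚ) / (q : ℚ)).den : ℤ) ∣ (q : ℤ) := by
        have := Rat.den_dvd p q
        rw [Rat.divInt_eq_div] at this
        exact_mod_cast this
      exact Nat.le_of_dvd hq0 (by exact_mod_cast h2)
    · have h4 := BIJ.trunc w r (2 * h) (by omega)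
      have h5 : (3 : ℝ) ^ (2 * h) = 9 ^ h := by rw [pow_mul]; norm_num
      rw [h5] at h4
      rw [← hr] at hpq
      push_cast
      have h6 := abs_le.1 h4
      have h7 := abs_le.1 hpq
      rw [add_div, abs_le]
      constructor <;> linarith
  choose! ρ hρ1 hρ2 using hex
  obtain ⟨G, hG⟩ : ∃ G, G = V.image ρ := ⟨_, rfl⟩
  have h2 : #V ≤ (2 * K + 3) * #G := by
    rw [hG]
    refine Finset.card_le_mul_card_image _ _ ?_
    intro a _
    refine BIJ.count _ K (3 ^ r * (a : ℝ)) ?_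
    intro v hv
    rw [Finset.mem_filter] at hv
    have h4 := hρ2 v hv.1
    rw [hv.2] at h4
    have h5 : (v : ℝ) - 3 ^ r * a = 3 ^ r * ((v : ℝ) / 3 ^ r - a) := by
      field_simp
    rw [h5, abs_mul, abs_of_pos h3r]
    have h6 := mul_le_mul_of_nonneg_left h4 h3r.le
    have h7 : (3 : ℝ) ^ r * ((K + 1) / 3 ^ r) = K + 1 := by field_simp
    linarith
  -- the number of fractions
  have h2jr : 2 * j ≤ r := by omega
  have h3 : #G ≤ 2 ^ (2 * j + 1) * (18 * K + 37) := by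
    have hsub : G ⊆ (Dig (2 * j + 1)).biUnion (fun v' => G.filter (fun a : ℚ =>
        |(a : ℝ) - (v' : ℝ) / 3 ^ (2 * j)| ≤ (K + 2) / 3 ^ (2 * j))) := by
      intro a ha
      have ha' := ha
      rw [hG, Finset.mem_image] at ha'
      obtain ⟨v, hv, rfl⟩ := ha'
      rw [Finset.mem_biUnion]
      refine ⟨v / 3 ^ (r - 2 * j), ?_, ?_⟩
      · refine hD2 (2 * j + 1) (r - 2 * j) v ?_
        rw [show 2 * j + 1 + (r - 2 * j) = r + 1 by omega]
        exact hVD v hv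
      · rw [Finset.mem_filter]
        refine ⟨ha, ?_⟩
        have h4 := abs_le.1 (BIJ.trunc v (2 * j) r h2jr)
        have h5 := abs_le.1 (hρ2 v hv)
        have h6 : ((K : ℝ) + 1) / 3 ^ r ≤ (K + 1) / 3 ^ (2 * j) := by
          apply div_le_div_of_nonneg_left (by positivity) (by positivity)
          exact pow_le_pow_right₀ (by norm_num) h2jr
        have h7 : ((K : ℝ) + 2) / 3 ^ (2 * j) = (K + 1) / 3 ^ (2 * j) + 1 / 3 ^ (2 * j) := by ring
        rw [h7, abs_le]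
        constructor <;> linarith
    refine (Finset.card_le_card hsub).trans ?_
    refine (Finset.card_biUnion_le_card_mul _ _ (18 * K + 37) ?_).trans
      (Nat.mul_le_mul_right _ (hD1 _))
    intro v' _
    have h4 := hRAT (G.filter (fun a : ℚ =>
        |(a : ℝ) - (v' : ℝ) / 3 ^ (2 * j)| ≤ (K + 2) / 3 ^ (2 * j))) (3 ^ (j + 1))
        ((v' : ℝ) / 3 ^ (2 * j)) ((K + 2) / 3 ^ (2 * j)) (by positivity) (by
          intro a ha
          rw [Finset.mem_filter, hG, Finset.mem_image] at ha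
          obtain ⟨⟨v, hv, rfl⟩, _⟩ := ha
          exact hρ1 v hv) (fun a ha => (Finset.mem_filter.1 ha).2)
    have h5 : 2 * (((K : ℝ) + 2) / 3 ^ (2 * j)) * ((3 ^ (j + 1) : ℕ) : ℝ) ^ 2 + 1 =
        ((18 * K + 37 : ℕ) : ℝ) := by
      push_cast
      have h6 : ((3 : ℝ) ^ (j + 1)) ^ 2 = 9 * 3 ^ (2 * j) := by
        rw [← pow_mul, show (j + 1) * 2 = 2 + 2 * j by ring, pow_add]
        norm_num
      rw [h6]
      field_simp
      ring
    rw [h5] at h4
    exact_mod_cast h4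
  calc #B ≤ 2 ^ (2 * h - r) * ((2 * K + 3) * (2 ^ (2 * j + 1) * (18 * K + 37))) :=
        h1.trans (Nat.mul_le_mul_left _ (h2.trans (Nat.mul_le_mul_left _ h3)))
    _ = (2 * K + 3) * (18 * K + 37) * (2 ^ (2 * h - r) * 2 ^ (2 * j + 1)) := by ring
    _ = (2 * K + 3) * (18 * K + 37) * 2 ^ (h + j + 1 - i) := by
        rw [← pow_add]
        congr 2
        omega

end MahlerT6
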