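import Pool.Agent.Work.MP_48678a_t6.Defs

/-!
# Block POL: the theorem
-/

set_option autoImplicit false

namespace MahlerT6

open Finset

namespace POL

/-- the part of degree at least two -/
noncomputable def RR (n : ℕ) (c : Fin n → ℤ) (x : ℝ) : ℝ := ∑ k : Fin n, (c k : ℝ) * x ^ ((k : ℕ) + 2)

/-- the Lipschitz constant -/
def LL (n : ℕ) : ℕ := ∑ k : Fin n, ((k : ℕ) + 2) * 2 ^ ((k : ℕ) + 1)

lemma lip (n : ℕ) (c : Fin n → ℤ) (B : ℝ) (hc : ∀ k, |(c k : ℝ)| ≤ B) (x y : ℝ)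
    (hx0 : 0 ≤ x) (hx : x ≤ 3 / 2) (hy0 : 0 ≤ y) (hy : y ≤ 3 / 2) :
    |RR n c x - RR n c y| ≤ LL n * B * |x - y| := by
  unfold RR LL
  rw [← Finset.sum_sub_distrib]
  refine (Finset.abs_sum_le_sum_abs _ _).trans ?_
  push_cast
  rw [Finset.sum_mul, Finset.sum_mul]
  refine Finset.sum_le_sum fun k _ => ?_
  rw [← mul_sub, abs_mul]
  have h1 := @abs_pow_sub_pow_le ℝ _ _ x y ((k : ℕ) + 2) _
  have h2 : max |x| |y| ≤ 2 := by
    rw [abs_of_nonneg hx0, abs_of_nonneg hy0]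
    exact max_le (by linarith) (by linarith)
  have h3 : max |x| |y| ^ ((k : ℕ) + 2 - 1) ≤ 2 ^ ((k : ℕ) + 1) := by
    rw [show (k : ℕ) + 2 - 1 = k + 1 by omega]
    exact pow_le_pow_left₀ (le_trans (abs_nonneg x) (le_max_left _ _)) h2 _
  have hB : 0 ≤ B := le_trans (abs_nonneg _) (hc k)
  have h4 : |x ^ ((k : ℕ) + 2) - y ^ ((k : ℕ) + 2)| ≤
      |x - y| * ((k : ℕ) + 2 : ℝ) * 2 ^ ((k : ℕ) + 1) := by
    refine h1.trans ?_
    push_cast
    exact mul_le_mul_of_nonneg_left h3 (by positivity)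
  calc |(c k : ℝ)| * |x ^ ((k : ℕ) + 2) - y ^ ((k : ℕ) + 2)| ≤
        B * (|x - y| * ((k : ℕ) + 2 : ℝ) * 2 ^ ((k : ℕ) + 1)) :=
        mul_le_mul (hc k) h4 (abs_nonneg _) hB
    _ = ((k : ℕ) + 2 : ℝ) * 2 ^ ((k : ℕ) + 1) * B * |x - y| := by ring

/-- splitting off the two lowest coefficients -/
lemma split (n : ℕ) (P : Polynomial ℤ) (hP : P.natDegree ≤ n + 1) (x : ℝ) :
    Polynomial.aeval x P = RR n (fun k => P.coeff (k + 2)) x + P.coeff 1 * x + P.coeff 0 := by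
  rw [Polynomial.aeval_eq_sum_range' (n := n + 2) (by omega), Finset.sum_range_succ',
    Finset.sum_range_succ']
  unfold RR
  rw [Finset.sum_range]
  simp

open scoped Classical in
/-- the pairs of lowest coefficients -/
noncomputable def SP (n : ℕ) (H : ℕ) (c : Fin n → ℤ) : Finset (ℤ × ℤ) :=
  ((Finset.Icc (-(H : ℤ)) H) ×ˢ (Finset.Icc (-(H : ℤ)) H)).filter
    (fun s => ∃ x : ℝ, IsX x ∧ RR n c x + s.1 * x + s.2 = 0)

end POL

theorem p_POL : Stmt_TWO → Stmt_XAP → Stmt_POL := by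
  classical
  intro hTWO hXAP D hD
  obtain ⟨n, rfl⟩ : ∃ n, D = n + 1 := ⟨D - 1, by omega⟩
  obtain ⟨C, hC⟩ := hTWO (POL.LL n)
  refine ⟨4 * 3 ^ n * C, ?_⟩
  intro H hH
  obtain ⟨h, hh⟩ : ∃ h, h = Nat.clog 3 H := ⟨_, rfl⟩
  have hH1 : H ≤ 3 ^ h := by rw [hh]; exact Nat.le_pow_clog (by norm_num) H
  have hH2 : 3 ^ h ≤ 3 * H := by
    rcases Nat.lt_or_ge 1 H with h1 | h1
    · have h2 := Nat.pow_pred_clog_lt_self (b := 3) (by norm_num) h1
      rw [← hh] at h2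
      have h3 : 1 ≤ h := by
        by_contra h4
        have h5 : h = 0 := by omega
        rw [h5] at hH1
        norm_num at hH1
        omega
      obtain ⟨k, rfl⟩ : ∃ k, h = k + 1 := ⟨h - 1, by omega⟩
      rw [Nat.pred_succ] at h2
      rw [pow_succ]
      omega
    · have h2 : H = 1 := by omega
      rw [hh, h2]
      simp
  -- the finite set of coefficients
  obtain ⟨U, hU⟩ : ∃ U : Finset (Fin n → ℤ), U = Fintype.piFinset (fun _ => Finset.Icc (-(H : ℤ)) H) :=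
    ⟨_, rfl⟩
  have hUcard : #U ≤ (3 * H) ^ n := by
    rw [hU, Fintype.card_piFinset]
    simp only [Int.card_Icc, Finset.prod_const, Finset.card_univ, Fintype.card_fin]
    refine Nat.pow_le_pow_left ?_ n
    omega
  obtain ⟨W, hW⟩ : ∃ W : Finset ((Fin n → ℤ) × (ℤ × ℤ)), W =
    U.biUnion (fun c => (POL.SP n H c).image (fun s => (c, s))) := ⟨_, rfl⟩
  have hWcard : #W ≤ (3 * H) ^ n * (C * 4 ^ h) := by
    rw [hW]
    refine (Finset.card_biUnion_le_card_mul _ _ (C * 4 ^ h) ?_).trans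
      (Nat.mul_le_mul_right _ hUcard)
    intro c hc
    refine Finset.card_image_le.trans ?_
    refine hC h (POL.RR n c) ?_ _ ?_
    · intro x y hx0 hx hy0 hy
      refine POL.lip n c (3 ^ h) ?_ x y hx0 hx hy0 hy
      intro k
      rw [hU, Fintype.mem_piFinset] at hc
      have h1 := Finset.mem_Icc.1 (hc k)
      have h2 : |c k| ≤ (H : ℤ) := abs_le.2 h1
      have h3 : |c k| ≤ ((3 ^ h : ℕ) : ℤ) := h2.trans (by exact_mod_cast hH1)
      have h4 : ((|c k| : ℤ) : ℝ) ≤ (((3 ^ h : ℕ) : ℤ) : ℝ) := by exact_mod_cast h3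
      push_cast at h4
      exact h4
    · intro s hs
      unfold POL.SP at hs
      rw [Finset.mem_filter, Finset.mem_product, Finset.mem_Icc, Finset.mem_Icc] at hs
      have hH3 : (H : ℤ) ≤ 3 ^ h := by exact_mod_cast hH1
      refine ⟨abs_le.2 ⟨?_, ?_⟩, abs_le.2 ⟨?_, ?_⟩, hs.2⟩ <;> linarith [hs.1.1.1, hs.1.1.2,
        hs.1.2.1, hs.1.2.2]
  -- the map
  have hinj : {P : Polynomial ℤ | P.natDegree ≤ n + 1 ∧ (∀ i, |P.coeff i| ≤ H) ∧
      ∃ x : ℝ, IsX x ∧ Polynomial.aeval x P = 0}.ncard ≤ #W := by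
    rw [← Set.ncard_coe_finset W]
    refine Set.ncard_le_ncard_of_injOn
      (fun P : Polynomial ℤ => ((fun k : Fin n => P.coeff (k + 2)), (P.coeff 1, P.coeff 0)))
      ?_ ?_ (Finset.finite_toSet W)
    · rintro P ⟨h1, h2, x, hx, hxP⟩
      rw [Finset.mem_coe, hW, Finset.mem_biUnion]
      refine ⟨fun k : Fin n => P.coeff (k + 2), ?_, ?_⟩
      · rw [hU, Fintype.mem_piFinset]
        intro k
        exact Finset.mem_Icc.2 (abs_le.1 (h2 _))
      · rw [Finset.mem_image]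
        refine ⟨(P.coeff 1, P.coeff 0), ?_, rfl⟩
        unfold POL.SP
        rw [Finset.mem_filter, Finset.mem_product]
        refine ⟨⟨Finset.mem_Icc.2 (abs_le.1 (h2 _)), Finset.mem_Icc.2 (abs_le.1 (h2 _))⟩, x, hx, ?_⟩
        rw [← POL.split n P h1 x]
        exact hxP
    · rintro P ⟨h1, _, _⟩ Q ⟨h2, _, _⟩ hPQ
      have e1 : (fun k : Fin n => P.coeff (k + 2)) = fun k : Fin n => Q.coeff (k + 2) :=
        congrArg Prod.fst hPQ
      have e2 : (P.coeff 1, P.coeff 0) = (Q.coeff 1, Q.coeff 0) := congrArg Prod.snd hPQ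
      have e3 : P.coeff 1 = Q.coeff 1 := congrArg Prod.fst e2
      have e4 : P.coeff 0 = Q.coeff 0 := congrArg Prod.snd e2
      ext i
      rcases i with _ | _ | i
      · exact e4
      · exact e3
      · by_cases hi : i < n
        · exact congrFun e1 ⟨i, hi⟩
        · rw [Polynomial.coeff_eq_zero_of_natDegree_lt (by omega),
            Polynomial.coeff_eq_zero_of_natDegree_lt (by omega)]
  -- the final estimate
  have hHpos : (0 : ℝ) < H := by exact_mod_cast (by omega : 0 < H)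
  have hl3 : 0 < Real.log 3 := Real.log_pos (by norm_num)
  have hl2 : 0 < Real.log 2 := Real.log_pos (by norm_num)
  obtain ⟨θ, hθ⟩ : ∃ θ, θ = 2 * (Real.log 2 / Real.log 3) := ⟨_, rfl⟩
  have hθ0 : 0 < θ := by rw [hθ]; positivity
  have h3θ : (3 : ℝ) ^ θ = 4 := by
    rw [Real.rpow_def_of_pos (by norm_num), hθ]
    have e1 : Real.log 3 * (2 * (Real.log 2 / Real.log 3)) = Real.log 4 := by
      have : Real.log 4 = 2 * Real.log 2 := by
        rw [show (4 : ℝ) = 2 ^ 2 by norm_num, Real.log_pow]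
        norm_num
      rw [this]
      field_simp
    rw [e1, Real.exp_log (by norm_num)]
  have h4h : (4 : ℝ) ^ h ≤ 4 * (H : ℝ) ^ θ := by
    have e1 : (4 : ℝ) ^ h = ((3 : ℝ) ^ h) ^ θ := by
      rw [← h3θ, ← Real.rpow_natCast, ← Real.rpow_natCast, ← Real.rpow_mul (by norm_num),
        ← Real.rpow_mul (by norm_num), mul_comm]
    have e2 : (3 : ℝ) ^ h ≤ 3 * H := by exact_mod_cast hH2
    rw [e1]
    calc ((3 : ℝ) ^ h) ^ θ ≤ (3 * H) ^ θ := Real.rpow_le_rpow (by positivity) e2 hθ0.le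
      _ = 4 * (H : ℝ) ^ θ := by rw [Real.mul_rpow (by norm_num) hHpos.le, h3θ]
  have hexp : (H : ℝ) ^ (((n + 1 : ℕ) : ℝ) - 1 + 2 * (Real.log 2 / Real.log 3)) =
      (H : ℝ) ^ n * (H : ℝ) ^ θ := by
    rw [← hθ, Real.rpow_add hHpos, ← Real.rpow_natCast]
    congr 2
    push_cast
    ring
  rw [hexp]
  have hW' : (#W : ℝ) ≤ (3 * H) ^ n * (C * 4 ^ h) := by exact_mod_cast hWcard
  calc ({P : Polynomial ℤ | P.natDegree ≤ n + 1 ∧ (∀ i, |P.coeff i| ≤ H) ∧
      ∃ x : ℝ, IsX x ∧ Polynomial.aeval x P = 0}.ncard : ℝ) ≤ #W := by exact_mod_cast hinj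
    _ ≤ (3 * H) ^ n * (C * 4 ^ h) := hW'
    _ ≤ (3 * H) ^ n * (C * (4 * (H : ℝ) ^ θ)) := by gcongr
    _ = 4 * 3 ^ n * C * ((H : ℝ) ^ n * (H : ℝ) ^ θ) := by rw [mul_pow]; ring

end MahlerT6
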