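import Pool.Agent.Work.MP_48678a_t6.Defs

set_option autoImplicit false

namespace MahlerT6

open Finset

theorem p_RAT : Stmt_RAT := by
  intro G Q x s hs hden hx
  have hmap : ∀ ρ ∈ G, ⌊((ρ : ℝ) - x + s) * (Q : ℝ) ^ 2⌋₊ ∈
      Finset.range (⌊2 * s * (Q : ℝ) ^ 2⌋₊ + 1) := by
    intro ρ hρ
    rw [Finset.mem_range, Nat.lt_succ_iff]
    apply Nat.floor_le_floor
    apply mul_le_mul_of_nonneg_right _ (by positivity)
    have := (abs_le.1 (hx ρ hρ)).2
    linarith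
  have hinj : Set.InjOn (fun ρ : ℚ => ⌊((ρ : ℝ) - x + s) * (Q : ℝ) ^ 2⌋₊) (G : Set ℚ) := by
    intro ρ hρ σ hσ h
    have hρ' : ρ ∈ G := hρ
    have hσ' : σ ∈ G := hσ
    by_contra hne
    simp only at h
    have h1 : 0 ≤ ((ρ : ℝ) - x + s) * (Q : ℝ) ^ 2 := by
      have := (abs_le.1 (hx ρ hρ')).1
      apply mul_nonneg _ (by positivity)
      linarith
    have h2 : 0 ≤ ((σ : ℝ) - x + s) * (Q : ℝ) ^ 2 := by
      have := (abs_le.1 (hx σ hσ')).1
      apply mul_nonneg _ (by positivity)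
      linarith
    have f1 := Nat.floor_le h1
    have f2 := Nat.lt_floor_add_one (((ρ : ℝ) - x + s) * (Q : ℝ) ^ 2)
    have f3 := Nat.floor_le h2
    have f4 := Nat.lt_floor_add_one (((σ : ℝ) - x + s) * (Q : ℝ) ^ 2)
    rw [h] at f1 f2
    have hlt : |((ρ : ℝ) - σ) * (Q : ℝ) ^ 2| < 1 := by
      rw [abs_lt]
      constructor <;> nlinarith
    have e1 : (ρ : ℝ) * ρ.den = ρ.num := by exact_mod_cast Rat.mul_den_eq_num ρ
    have e2 : (σ : ℝ) * σ.den = σ.num := by exact_mod_cast Rat.mul_den_eq_num σ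
    have e3 : ((ρ : ℝ) - σ) * (ρ.den * σ.den) = ((ρ.num * σ.den - σ.num * ρ.den : ℤ) : ℝ) := by
      push_cast
      rw [← e1, ← e2]; ring
    have hnz : (ρ.num * σ.den - σ.num * ρ.den : ℤ) ≠ 0 := by
      intro h0
      rw [h0] at e3
      simp only [Int.cast_zero, mul_eq_zero] at e3
      rcases e3 with e3 | e3 | e3
      · apply hne
        have : (ρ : ℝ) = σ := by linarith
        exact_mod_cast this
      · exact ρ.den_ne_zero (by exact_mod_cast e3)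
      · exact σ.den_ne_zero (by exact_mod_cast e3)
    have h5 : (1 : ℝ) ≤ |((ρ : ℝ) - σ) * (ρ.den * σ.den)| := by
      rw [e3]
      exact_mod_cast Int.one_le_abs hnz
    have hd1 : (ρ.den : ℝ) ≤ Q := by exact_mod_cast (hden ρ hρ').le
    have hd2 : (σ.den : ℝ) ≤ Q := by exact_mod_cast (hden σ hσ').le
    rw [abs_mul] at h5 hlt
    rw [abs_of_nonneg (by positivity : (0 : ℝ) ≤ (ρ.den : ℝ) * σ.den)] at h5
    rw [abs_of_nonneg (by positivity : (0 : ℝ) ≤ (Q : ℝ) ^ 2)] at hlt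
    have h6 : (ρ.den : ℝ) * σ.den ≤ (Q : ℝ) ^ 2 := by
      rw [pow_two]
      exact mul_le_mul hd1 hd2 (by positivity) (by positivity)
    have h7 := mul_le_mul_of_nonneg_left h6 (abs_nonneg ((ρ : ℝ) - σ))
    linarith
  have hc := Finset.card_le_card_of_injOn _ hmap hinj
  rw [Finset.card_range] at hc
  have hfl : (⌊2 * s * (Q : ℝ) ^ 2⌋₊ : ℝ) ≤ 2 * s * (Q : ℝ) ^ 2 := Nat.floor_le (by positivity)
  have hc' : (#G : ℝ) ≤ (⌊2 * s * (Q : ℝ) ^ 2⌋₊ : ℝ) + 1 := by exact_mod_cast hc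
  linarith

end MahlerT6
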