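import Pool.Agent.Work.MP_48678a_t6.Defs

/-! # MP_48678a_nt T6, block RUN (helper87) -/

set_option autoImplicit false

namespace MahlerT6

open Finset

theorem p_RUN : Stmt_RUN := by
  intro K H x S hK hKH ha hd
  have hK0 : (0:ℝ) < K := by exact_mod_cast hK
  have hH : 0 < H := lt_trans hK0 hKH
  have hKH1 : (K:ℝ) / H < 1 := (div_lt_one hH).mpr hKH
  have hKHp : (0:ℝ) < (K:ℝ) / H := div_pos hK0 hH
  set f : ℤ × ℤ → ℤ := fun s => ⌊2 * (K : ℝ) * (s.1:ℝ) / H⌋ with hf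
  set T : Finset ℤ := Finset.Icc (-(2 * K : ℤ)) (2 * K) with hT
  have hTc : #T = 4 * K + 1 := by
    rw [hT, Int.card_Icc]
    omega
  have hmaps : ∀ s ∈ S, f s ∈ T := by
    intro s hs
    have h1 := abs_le.mp (ha s hs)
    rw [hT, Finset.mem_Icc]
    constructor
    · rw [hf]
      apply Int.le_floor.mpr
      push_cast
      rw [le_div_iff₀ hH]
      nlinarith [h1.1, h1.2]
    · have h2 : (f s : ℝ) ≤ 2 * K := (Int.floor_le _).trans (by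
        rw [div_le_iff₀ hH]
        nlinarith [h1.1, h1.2])
      exact_mod_cast h2
  obtain ⟨y, hy, hmax⟩ := Finset.exists_max_image T (fun y => #{s ∈ S | f s = y})
    ⟨0, by rw [hT, Finset.mem_Icc]; omega⟩
  have hcard : #S ≤ #{s ∈ S | f s = y} * (4 * K + 1) := by
    rw [← hTc]
    exact Finset.card_le_mul_card_image_of_maps_to hmaps _ hmax
  set C : Finset (ℤ × ℤ) := {s ∈ S | f s = y} with hC
  have hsimple : #C ≤ 1 → ∃ (r q : ℕ) (p : ℤ), 1 ≤ q ∧ #S ≤ (4 * K + 1) * (r + 1) ∧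
      (r : ℝ) * q ≤ 2 * H ∧ r * |q * x - p| ≤ K / H := by
    intro h1
    refine ⟨0, 1, 0, le_refl 1, ?_, ?_, ?_⟩
    · calc #S ≤ #C * (4 * K + 1) := hcard
        _ ≤ 1 * (4 * K + 1) := Nat.mul_le_mul_right _ h1
        _ = (4 * K + 1) * (0 + 1) := by ring
    · rw [Nat.cast_zero, zero_mul]
      linarith
    · rw [Nat.cast_zero, zero_mul]
      exact hKHp.le
  by_cases hr : #C ≤ 1
  · exact hsimple hr
  have hr2 : 2 ≤ #C := by omega
  have hCS : ∀ s ∈ C, s ∈ S := fun s hs => (Finset.mem_filter.mp hs).1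
  have hCf : ∀ s ∈ C, f s = y := fun s hs => (Finset.mem_filter.mp hs).2
  obtain ⟨s₀, hs₀, hmin⟩ := Finset.exists_min_image C (fun s => s.1)
    (Finset.card_pos.mp (by omega))
  -- differences
  have hlt : ∀ s ∈ C, ((s.1 : ℝ) - s₀.1) * (2 * K) < H := by
    intro s hs
    have h1 : f s = f s₀ := (hCf s hs).trans (hCf s₀ hs₀).symm
    have h2 := Int.lt_floor_add_one (2 * (K : ℝ) * (s.1:ℝ) / H)
    have h3 := Int.floor_le (2 * (K : ℝ) * (s₀.1:ℝ) / H)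
    have h4 : ((⌊2 * (K : ℝ) * (s.1:ℝ) / H⌋ : ℤ) : ℝ) =
        ((⌊2 * (K : ℝ) * (s₀.1:ℝ) / H⌋ : ℤ) : ℝ) := congrArg (fun z : ℤ => (z : ℝ)) h1
    have h5 : 2 * (K : ℝ) * (s.1:ℝ) / H - 2 * (K : ℝ) * (s₀.1:ℝ) / H < 1 := by linarith
    rw [← sub_div, div_lt_one hH] at h5
    linarith
  have hsm : ∀ s ∈ C, |((s.1 : ℝ) - s₀.1) * x + ((s.2 : ℝ) - s₀.2)| ≤ K / H := fun s hs =>
    hd s (hCS s hs) s₀ (hCS s₀ hs₀)
  have hu0 : ∀ s ∈ C, 0 ≤ s.1 - s₀.1 := fun s hs => sub_nonneg.mpr (hmin s hs)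
  have hpos : ∀ s ∈ C, s ≠ s₀ → 0 < s.1 - s₀.1 := by
    intro s hs hne
    refine lt_of_le_of_ne (hu0 s hs) fun h0 => hne ?_
    have h1 : s.1 = s₀.1 := by omega
    have h2 := hsm s hs
    rw [h1, sub_self, zero_mul, zero_add] at h2
    have h3 : |s.2 - s₀.2| < 1 := by
      have h4 : |((s.2 - s₀.2 : ℤ) : ℝ)| < 1 := by
        push_cast
        exact lt_of_le_of_lt h2 hKH1
      exact_mod_cast h4
    have h5 := Int.abs_lt_one_iff.mp h3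
    exact Prod.ext h1 (by omega)
  have hdet : ∀ s ∈ C, ∀ s' ∈ C,
      (s.1 - s₀.1) * (s'.2 - s₀.2) = (s'.1 - s₀.1) * (s.2 - s₀.2) := by
    intro s hs s' hs'
    have h1 := hsm s hs
    have h2 := hsm s' hs'
    have h3 := hlt s hs
    have h4 := hlt s' hs'
    have h5 : (0:ℝ) ≤ (s.1 : ℝ) - s₀.1 := by exact_mod_cast hu0 s hs
    have h6 : (0:ℝ) ≤ (s'.1 : ℝ) - s₀.1 := by exact_mod_cast hu0 s' hs'
    have h7 : |((s.1 : ℝ) - s₀.1) * (((s'.1 : ℝ) - s₀.1) * x + ((s'.2 : ℝ) - s₀.2)) -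
        ((s'.1 : ℝ) - s₀.1) * (((s.1 : ℝ) - s₀.1) * x + ((s.2 : ℝ) - s₀.2))| < 1 := by
      refine lt_of_le_of_lt (abs_sub _ _) ?_
      rw [abs_mul, abs_mul, abs_of_nonneg h5, abs_of_nonneg h6]
      have h8 : ((s.1 : ℝ) - s₀.1) * |((s'.1 : ℝ) - s₀.1) * x + ((s'.2 : ℝ) - s₀.2)| ≤
          ((s.1 : ℝ) - s₀.1) * (K / H) := mul_le_mul_of_nonneg_left h2 h5
      have h9 : ((s'.1 : ℝ) - s₀.1) * |((s.1 : ℝ) - s₀.1) * x + ((s.2 : ℝ) - s₀.2)| ≤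
          ((s'.1 : ℝ) - s₀.1) * (K / H) := mul_le_mul_of_nonneg_left h1 h6
      have h10 : ((s.1 : ℝ) - s₀.1) * (K / H) < 1 / 2 := by
        rw [← mul_div_assoc, div_lt_iff₀ hH]
        linarith
      have h11 : ((s'.1 : ℝ) - s₀.1) * (K / H) < 1 / 2 := by
        rw [← mul_div_assoc, div_lt_iff₀ hH]
        linarith
      linarith
    have h12 : |(s.1 - s₀.1) * (s'.2 - s₀.2) - (s'.1 - s₀.1) * (s.2 - s₀.2)| < 1 := by
      have h13 : |(((s.1 - s₀.1) * (s'.2 - s₀.2) - (s'.1 - s₀.1) * (s.2 - s₀.2) : ℤ) : ℝ)|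
          < 1 := by
        push_cast
        refine lt_of_eq_of_lt ?_ h7
        congr 1
        ring
      exact_mod_cast h13
    have h14 := Int.abs_lt_one_iff.mp h12
    linarith
  -- the primitive vector
  obtain ⟨s₁, hs₁, hne₁⟩ : ∃ s₁ ∈ C, s₁ ≠ s₀ := by
    obtain ⟨a, b, ha', hb', hab⟩ := Finset.one_lt_card_iff.mp (by omega : 1 < #C)
    by_cases h : a = s₀
    · exact ⟨b, hb', fun h' => hab (h.trans h'.symm)⟩
    · exact ⟨a, ha', h⟩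
  have hu1 := hpos s₁ hs₁ hne₁
  have hg : 0 < Int.gcd (s₁.1 - s₀.1) (s₁.2 - s₀.2) :=
    Int.gcd_pos_of_ne_zero_left _ hu1.ne'
  obtain ⟨q, v, hcop, hq, hv⟩ := Int.exists_gcd_one hg
  set g : ℤ := (Int.gcd (s₁.1 - s₀.1) (s₁.2 - s₀.2) : ℤ) with hgdef
  have hg0 : 0 < g := by rw [hgdef]; exact_mod_cast hg
  have hq0 : 0 < q := by
    by_contra hh
    push Not at hh
    have : q * g ≤ 0 := mul_nonpos_of_nonpos_of_nonneg hh hg0.le
    omega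
  have hpar : ∀ s ∈ C, ∃ t : ℤ, s.1 - s₀.1 = t * q ∧ s.2 - s₀.2 = t * v := by
    intro s hs
    have h1 := hdet s hs s₁ hs₁
    rw [hq, hv] at h1
    have h2 : (s.1 - s₀.1) * v = q * (s.2 - s₀.2) := by
      apply mul_right_cancel₀ hg0.ne'
      linarith
    have h3 : q ∣ (s.1 - s₀.1) * v := ⟨_, h2⟩
    have h4 : q ∣ (s.1 - s₀.1) :=
      (Int.isCoprime_iff_gcd_eq_one.mpr hcop).dvd_of_dvd_mul_right h3
    obtain ⟨t, ht⟩ := h4
    refine ⟨t, by rw [ht]; ring, ?_⟩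
    apply mul_left_cancel₀ hq0.ne'
    rw [← h2, ht]
    ring
  choose! τ hτ1 hτ2 using hpar
  have hτ0 : ∀ s ∈ C, 0 ≤ τ s := by
    intro s hs
    by_contra hh
    push Not at hh
    have h1 := hu0 s hs
    rw [hτ1 s hs] at h1
    have h2 : τ s * q < 0 := mul_neg_of_neg_of_pos hh hq0
    omega
  have hinj : ∀ s ∈ C, ∀ s' ∈ C, τ s = τ s' → s = s' := by
    intro s hs s' hs' h
    have h1 := hτ1 s hs
    have h2 := hτ1 s' hs'
    have h3 := hτ2 s hs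
    have h4 := hτ2 s' hs'
    rw [h] at h1 h3
    exact Prod.ext (by omega) (by omega)
  obtain ⟨s₂, hs₂, ht₂⟩ : ∃ s ∈ C, ((#C - 1 : ℕ) : ℤ) ≤ τ s := by
    by_contra hh
    push Not at hh
    have h1 : #(C.image τ) ≤ #(Finset.Ico (0:ℤ) ((#C - 1 : ℕ) : ℤ)) := by
      apply Finset.card_le_card
      intro t ht
      obtain ⟨s, hs, rfl⟩ := Finset.mem_image.mp ht
      exact Finset.mem_Ico.mpr ⟨hτ0 s hs, hh s hs⟩
    rw [Finset.card_image_of_injOn (fun s hs s' hs' h => hinj s hs s' hs' h), Int.card_Ico] at h1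
    omega
  have hq' : ((q.toNat : ℕ) : ℝ) = (q : ℝ) := by
    have : ((q.toNat : ℕ) : ℤ) = q := Int.toNat_of_nonneg hq0.le
    exact_mod_cast this
  have hrt : ((#C - 1 : ℕ) : ℝ) ≤ (τ s₂ : ℝ) := by exact_mod_cast ht₂
  have hqr : (0:ℝ) < (q : ℝ) := by exact_mod_cast hq0
  have h1R : (s₂.1 : ℝ) - s₀.1 = τ s₂ * q := by exact_mod_cast hτ1 s₂ hs₂
  have h2R : (s₂.2 : ℝ) - s₀.2 = τ s₂ * v := by exact_mod_cast hτ2 s₂ hs₂
  refine ⟨#C - 1, q.toNat, -v, by omega, ?_, ?_, ?_⟩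
  · calc #S ≤ #C * (4 * K + 1) := hcard
      _ = (4 * K + 1) * (#C - 1 + 1) := by
          rw [Nat.sub_add_cancel (by omega), mul_comm]
  · rw [hq']
    have h3 : ((#C - 1 : ℕ) : ℝ) * q ≤ τ s₂ * q := mul_le_mul_of_nonneg_right hrt hqr.le
    have h4 := abs_le.mp (ha s₂ (hCS s₂ hs₂))
    have h5 := abs_le.mp (ha s₀ (hCS s₀ hs₀))
    linarith [h4.2, h5.1]
  · rw [hq']
    have h3 := hsm s₂ hs₂
    rw [h1R, h2R, show (τ s₂ : ℝ) * q * x + τ s₂ * v = τ s₂ * (q * x + v) by ring, abs_mul,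
      abs_of_nonneg (by exact_mod_cast hτ0 s₂ hs₂)] at h3
    have h4 : (q : ℝ) * x - ((-v : ℤ) : ℝ) = q * x + v := by push_cast; ring
    rw [h4]
    exact (mul_le_mul_of_nonneg_right hrt (abs_nonneg _)).trans h3

end MahlerT6
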