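import Pool.Agent.Work.MP_48678a_t6.Defs

/-! # Block SUM (helper98): the sum over the cells -/

set_option autoImplicit false

namespace MahlerT6

open Finset

namespace SUM

private theorem geo (h : ℕ) : ∑ i ∈ range (h + 1), 3 ^ i * 4 ^ (h - i) + 3 ^ (h + 1) = 4 ^ (h + 1) := by
  induction h with
  | zero => norm_num
  | succ h ih =>
    rw [Finset.sum_range_succ]
    have h1 : ∑ i ∈ range (h + 1), 3 ^ i * 4 ^ (h + 1 - i) =
        4 * ∑ i ∈ range (h + 1), 3 ^ i * 4 ^ (h - i) := by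
      rw [Finset.mul_sum]
      refine Finset.sum_congr rfl fun i hi => ?_
      have h2 : h + 1 - i = (h - i) + 1 := by
        have := Finset.mem_range.1 hi
        omega
      rw [h2, pow_succ]
      ring
    rw [h1, Nat.sub_self, pow_zero, mul_one]
    have h3 : 4 ^ (h + 1 + 1) = 4 * (∑ i ∈ range (h + 1), 3 ^ i * 4 ^ (h - i) + 3 ^ (h + 1)) := by
      rw [ih, pow_succ]
      ring
    rw [h3, pow_succ 3 (h + 1)]
    ring

private theorem geo2 (J : ℕ) : ∑ j ∈ range (J + 1), 2 ^ j ≤ 2 * 2 ^ J := by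
  induction J with
  | zero => norm_num
  | succ J ih =>
    rw [Finset.sum_range_succ, pow_succ]
    omega

/-- the bound for one cell -/
private theorem cell (K h : ℕ) (n : ℕ → ℕ) (w : ℕ)
    (hw : ∃ (r q : ℕ) (p : ℤ), 1 ≤ q ∧ n w ≤ (4 * K + 1) * (r + 1) ∧
    (r : ℝ) * q ≤ 2 * 3 ^ h ∧ r * |q * ((w : ℝ) / 9 ^ h) - p| ≤ K / 3 ^ h) :
    n w ≤ (4 * K + 1) * (1 + ∑ i ∈ range (h + 1), ∑ j ∈ range (h - i + 1),
      3 ^ (i + 1) * (if InB K h i j w then 1 else 0)) := by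
  obtain ⟨r, q, p, hq, h1, h2, h3⟩ := hw
  refine h1.trans (Nat.mul_le_mul_left _ ?_)
  rcases Nat.eq_zero_or_pos r with hr | hr
  · rw [hr]
    omega
  have ha : 3 ^ Nat.log 3 r ≤ r := Nat.pow_log_le_self 3 (by omega)
  have hb : r < 3 ^ (Nat.log 3 r + 1) := Nat.lt_pow_succ_log_self (by norm_num) r
  have hc : 3 ^ Nat.log 3 q ≤ q := Nat.pow_log_le_self 3 (by omega)
  have hd : q < 3 ^ (Nat.log 3 q + 1) := Nat.lt_pow_succ_log_self (by norm_num) q
  generalize Nat.log 3 r = i at ha hb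
  generalize Nat.log 3 q = j at hc hd
  have h4 : r * q ≤ 2 * 3 ^ h := by exact_mod_cast h2
  have h5 : i + j ≤ h := by
    have h6 : 3 ^ (i + j) < 3 ^ (h + 1) := by
      calc 3 ^ (i + j) = 3 ^ i * 3 ^ j := pow_add _ _ _
        _ ≤ r * q := Nat.mul_le_mul ha hc
        _ ≤ 2 * 3 ^ h := h4
        _ < 3 ^ (h + 1) := by
          rw [pow_succ]
          have : 0 < 3 ^ h := by positivity
          omega
    have := (Nat.pow_lt_pow_iff_right (show 1 < 3 by norm_num)).1 h6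
    omega
  have hr' : (0 : ℝ) < r := by exact_mod_cast hr
  have hq' : (0 : ℝ) < q := by exact_mod_cast hq
  have hB : InB K h i j w := by
    refine ⟨q, p, hc, hd, ?_⟩
    have e1 : (w : ℝ) / 9 ^ h - p / q = (q * ((w : ℝ) / 9 ^ h) - p) / q := by
      field_simp
    rw [e1, abs_div, abs_of_pos hq', div_le_div_iff₀ hq' (by positivity)]
    have h7 : ((3 : ℝ) ^ i) * 3 ^ j ≤ r * q := by
      have : 3 ^ i * 3 ^ j ≤ r * q := Nat.mul_le_mul ha hc
      exact_mod_cast this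
    have h8 : (0 : ℝ) ≤ |q * ((w : ℝ) / 9 ^ h) - p| := abs_nonneg _
    rw [le_div_iff₀ (by positivity)] at h3
    calc |q * ((w : ℝ) / 9 ^ h) - p| * 3 ^ (h + i + j) =
        |q * ((w : ℝ) / 9 ^ h) - p| * 3 ^ h * ((3 : ℝ) ^ i * 3 ^ j) := by
          rw [pow_add, pow_add]
          ring
      _ ≤ |q * ((w : ℝ) / 9 ^ h) - p| * 3 ^ h * (r * q) :=
        mul_le_mul_of_nonneg_left h7 (by positivity)
      _ = (r * |q * ((w : ℝ) / 9 ^ h) - p| * 3 ^ h) * q := by ring
      _ ≤ K * q := mul_le_mul_of_nonneg_right h3 hq'.le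
  have h9 : 3 ^ (i + 1) ≤ ∑ i ∈ range (h + 1), ∑ j ∈ range (h - i + 1),
      3 ^ (i + 1) * (if InB K h i j w then 1 else 0) := by
    calc 3 ^ (i + 1) = 3 ^ (i + 1) * (if InB K h i j w then 1 else 0) := by rw [if_pos hB, mul_one]
      _ ≤ ∑ j ∈ range (h - i + 1), 3 ^ (i + 1) * (if InB K h i j w then 1 else 0) :=
        Finset.single_le_sum (f := fun j => 3 ^ (i + 1) * (if InB K h i j w then 1 else 0))
          (fun _ _ => Nat.zero_le _) (Finset.mem_range.2 (by omega))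
      _ ≤ _ := Finset.single_le_sum (f := fun i => ∑ j ∈ range (h - i + 1),
          3 ^ (i + 1) * (if InB K h i j w then 1 else 0))
          (fun _ _ => Nat.zero_le _) (Finset.mem_range.2 (by omega))
  omega

end SUM

theorem p_SUM (hDGC : Stmt_DGC) (hBIJ : Stmt_BIJ) : Stmt_SUM := by
  intro K h n hn
  set A : ℕ := (2 * K + 3) * (18 * K + 37) with hA
  have h1 : ∑ w ∈ Dig (2 * h + 1), n w ≤ ∑ w ∈ Dig (2 * h + 1),
      (4 * K + 1) * (1 + ∑ i ∈ range (h + 1), ∑ j ∈ range (h - i + 1),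
      3 ^ (i + 1) * (if InB K h i j w then 1 else 0)) :=
    Finset.sum_le_sum fun w hw => SUM.cell K h n w (hn w hw)
  have h2 : ∑ w ∈ Dig (2 * h + 1), (∑ i ∈ range (h + 1), ∑ j ∈ range (h - i + 1),
      3 ^ (i + 1) * (if InB K h i j w then 1 else 0)) =
      ∑ i ∈ range (h + 1), ∑ j ∈ range (h - i + 1),
        3 ^ (i + 1) * #{w ∈ Dig (2 * h + 1) | InB K h i j w} := by
    rw [Finset.sum_comm]
    refine Finset.sum_congr rfl fun i _ => ?_
    rw [Finset.sum_comm]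
    refine Finset.sum_congr rfl fun j _ => ?_
    rw [← Finset.mul_sum, Finset.card_filter]
  have h3 : ∀ i ∈ range (h + 1), ∑ j ∈ range (h - i + 1),
      3 ^ (i + 1) * #{w ∈ Dig (2 * h + 1) | InB K h i j w} ≤ 12 * A * (3 ^ i * 4 ^ (h - i)) := by
    intro i hi
    have hi' : i ≤ h := by
      have := Finset.mem_range.1 hi
      omega
    calc ∑ j ∈ range (h - i + 1), 3 ^ (i + 1) * #{w ∈ Dig (2 * h + 1) | InB K h i j w} ≤
        ∑ j ∈ range (h - i + 1), 3 ^ (i + 1) * (A * (2 ^ (h - i + 1) * 2 ^ j)) := by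
          refine Finset.sum_le_sum fun j hj => Nat.mul_le_mul_left _ ?_
          have hj' := Finset.mem_range.1 hj
          have h4 := hBIJ K h i j (by omega)
          refine h4.trans (le_of_eq ?_)
          have h5 : h + j + 1 - i = (h - i + 1) + j := by omega
          rw [h5, pow_add, hA]
      _ = 3 ^ (i + 1) * (A * (2 ^ (h - i + 1) * ∑ j ∈ range (h - i + 1), 2 ^ j)) := by
          rw [Finset.mul_sum, Finset.mul_sum, Finset.mul_sum]
      _ ≤ 3 ^ (i + 1) * (A * (2 ^ (h - i + 1) * (2 * 2 ^ (h - i)))) := by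
          have := SUM.geo2 (h - i)
          gcongr
      _ = 12 * A * (3 ^ i * 4 ^ (h - i)) := by
          have h6 : (4 : ℕ) ^ (h - i) = 2 ^ (h - i) * 2 ^ (h - i) := by
            rw [← mul_pow]
            norm_num
          rw [h6, pow_succ, pow_succ]
          ring
  have h4 : ∑ i ∈ range (h + 1), ∑ j ∈ range (h - i + 1),
      3 ^ (i + 1) * #{w ∈ Dig (2 * h + 1) | InB K h i j w} ≤ 48 * A * 4 ^ h := by
    calc _ ≤ ∑ i ∈ range (h + 1), 12 * A * (3 ^ i * 4 ^ (h - i)) := Finset.sum_le_sum h3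
      _ = 12 * A * ∑ i ∈ range (h + 1), 3 ^ i * 4 ^ (h - i) := by rw [Finset.mul_sum]
      _ ≤ 12 * A * 4 ^ (h + 1) := by
          refine Nat.mul_le_mul_left _ ?_
          exact (Nat.le_add_right _ _).trans (SUM.geo h).le
      _ = 48 * A * 4 ^ h := by
          rw [pow_succ]
          ring
  have h5 : #(Dig (2 * h + 1)) ≤ 2 * 4 ^ h := by
    refine (hDGC.1 _).trans (le_of_eq ?_)
    rw [pow_succ, pow_mul]
    norm_num
    ring
  calc ∑ w ∈ Dig (2 * h + 1), n w ≤ _ := h1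
    _ = (4 * K + 1) * (#(Dig (2 * h + 1)) + ∑ i ∈ range (h + 1), ∑ j ∈ range (h - i + 1),
        3 ^ (i + 1) * #{w ∈ Dig (2 * h + 1) | InB K h i j w}) := by
        rw [← Finset.mul_sum, Finset.sum_add_distrib, h2, Finset.sum_const, smul_eq_mul, mul_one]
    _ ≤ (4 * K + 1) * (2 * 4 ^ h + 48 * A * 4 ^ h) :=
        Nat.mul_le_mul_left _ (Nat.add_le_add h5 h4)
    _ ≤ (4 * K + 1) * (2 + 96 * A) * 4 ^ h := by
        have : (4 * K + 1) * (2 * 4 ^ h + 48 * A * 4 ^ h) ≤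
            (4 * K + 1) * ((2 + 96 * A) * 4 ^ h) := by
          refine Nat.mul_le_mul_left _ ?_
          nlinarith [Nat.zero_le (A * 4 ^ h)]
        calc _ ≤ _ := this
          _ = _ := by ring

end MahlerT6
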