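import Pool.Agent.Work.MP_48678a_t6.Defs

set_option autoImplicit false

namespace MahlerT6

open Finset

theorem p_TWO (hXAP : Stmt_XAP) (hRUN : Stmt_RUN) (hSUM : Stmt_SUM) : Stmt_TWO := by
  classical
  intro L
  set K := L + 1 with hK
  set W := (4 * K + 1) * (2 + 96 * ((2 * K + 3) * (18 * K + 37))) with hW
  refine ⟨W + (2 * K + 1) ^ 2, fun h R hR S hS => ?_⟩
  have h4 : 1 ≤ 4 ^ h := Nat.one_le_pow _ _ (by norm_num)
  rcases le_or_gt (3 ^ h) K with hsmall | hlarge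
  · -- small height: trivial bound
    have hsub : S ⊆ (Icc (-(K : ℤ)) K) ×ˢ (Icc (-(K : ℤ)) K) := by
      intro s hs
      obtain ⟨h1, h2, -⟩ := hS s hs
      have h3 : ((3 : ℤ) ^ h) ≤ K := by exact_mod_cast hsmall
      rw [mem_product, mem_Icc, mem_Icc]
      obtain ⟨a1, a2⟩ := abs_le.mp h1
      obtain ⟨b1, b2⟩ := abs_le.mp h2
      exact ⟨⟨by linarith, by linarith⟩, ⟨by linarith, by linarith⟩⟩
    have hc := card_le_card hsub
    rw [card_product, Int.card_Icc] at hc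
    have h5 : ((K : ℤ) + 1 - -(K : ℤ)).toNat = 2 * K + 1 := by omega
    rw [h5] at hc
    calc #S ≤ (2 * K + 1) * (2 * K + 1) := hc
      _ ≤ (W + (2 * K + 1) ^ 2) * 1 := by rw [sq]; omega
      _ ≤ _ := Nat.mul_le_mul_left _ h4
  · -- choose roots and cells
    have hex : ∀ s ∈ S, ∃ x : ℝ, IsX x ∧ R x + s.1 * x + s.2 = 0 := fun s hs => (hS s hs).2.2
    choose! X hX hX0 using hex
    have hex2 : ∀ s ∈ S, ∃ w ∈ Dig (2 * h + 1), (w : ℝ) / 3 ^ (2 * h) ≤ X s ∧
        X s ≤ (w + 1 / 2) / 3 ^ (2 * h) := fun s hs => (hXAP (X s) (hX s hs)).2.2 (2 * h)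
    choose! w hw hw1 hw2 using hex2
    have h9 : (3 : ℝ) ^ (2 * h) = 9 ^ h := by rw [pow_mul]; norm_num
    have h9' : (9 : ℝ) ^ h = 3 ^ h * 3 ^ h := by rw [← mul_pow]; norm_num
    have h3pos : (0 : ℝ) < 3 ^ h := by positivity
    have h9pos : (0 : ℝ) < 9 ^ h := by positivity
    have hclose : ∀ s ∈ S, |(w s : ℝ) / 9 ^ h - X s| ≤ 1 / 2 / 9 ^ h := by
      intro s hs
      have e1 := hw1 s hs
      have e2 := hw2 s hs
      rw [h9] at e1 e2
      rw [add_div] at e2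
      rw [abs_le]
      constructor <;> linarith
    -- the cell condition
    have hcell : ∀ s ∈ S, ∀ s' ∈ S, w s = w s' →
        |((s.1 : ℝ) - s'.1) * ((w s : ℝ) / 9 ^ h) + ((s.2 : ℝ) - s'.2)| ≤ (K : ℝ) / 3 ^ h := by
      intro s hs s' hs' hww
      obtain ⟨z, hz⟩ : ∃ z : ℝ, z = (w s : ℝ) / 9 ^ h := ⟨_, rfl⟩
      have c1 := hclose s hs
      have c2 := hclose s' hs'
      rw [← hww, ← hz] at c2
      rw [← hz] at c1
      rw [← hz]
      obtain ⟨a1, -, -⟩ := hS s hs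
      obtain ⟨a2, -, -⟩ := hS s' hs'
      have a1' : |(s.1 : ℝ)| ≤ 3 ^ h := by exact_mod_cast a1
      have a2' : |(s'.1 : ℝ)| ≤ 3 ^ h := by exact_mod_cast a2
      obtain ⟨x0, x1, -⟩ := hXAP (X s) (hX s hs)
      obtain ⟨y0, y1, -⟩ := hXAP (X s') (hX s' hs')
      have hRR := hR (X s) (X s') x0 x1 y0 y1
      have hxx : |X s - X s'| ≤ 1 / 9 ^ h := by
        calc |X s - X s'| = |(z - X s') - (z - X s)| := by congr 1; ring
          _ ≤ |z - X s'| + |z - X s| := abs_sub _ _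
          _ ≤ 1 / 2 / 9 ^ h + 1 / 2 / 9 ^ h := add_le_add c2 c1
          _ = 1 / 9 ^ h := by ring
      have e : ((s.1 : ℝ) - s'.1) * z + ((s.2 : ℝ) - s'.2) =
          s.1 * (z - X s) - s'.1 * (z - X s') - (R (X s) - R (X s')) := by
        have r1 := hX0 s hs
        have r2 := hX0 s' hs'
        linear_combination r1 - r2
      rw [e]
      have b1 : |(s.1 : ℝ) * (z - X s)| ≤ 3 ^ h * (1 / 2 / 9 ^ h) := by
        rw [abs_mul]
        exact mul_le_mul a1' c1 (abs_nonneg _) h3pos.le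
      have b2 : |(s'.1 : ℝ) * (z - X s')| ≤ 3 ^ h * (1 / 2 / 9 ^ h) := by
        rw [abs_mul]
        exact mul_le_mul a2' c2 (abs_nonneg _) h3pos.le
      have b3 : |R (X s) - R (X s')| ≤ L * 3 ^ h * (1 / 9 ^ h) :=
        hRR.trans (mul_le_mul_of_nonneg_left hxx (by positivity))
      calc |(s.1 : ℝ) * (z - X s) - s'.1 * (z - X s') - (R (X s) - R (X s'))|
          ≤ |(s.1 : ℝ) * (z - X s)| + |(s'.1 : ℝ) * (z - X s')| + |R (X s) - R (X s')| :=
            (abs_sub _ _).trans (add_le_add_left (abs_sub _ _) _)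
        _ ≤ 3 ^ h * (1 / 2 / 9 ^ h) + 3 ^ h * (1 / 2 / 9 ^ h) + L * 3 ^ h * (1 / 9 ^ h) :=
            add_le_add (add_le_add b1 b2) b3
        _ = (K : ℝ) / 3 ^ h := by
            rw [h9', hK]
            push_cast
            field_simp
            ring
    have hKlt : (K : ℝ) < 3 ^ h := by exact_mod_cast hlarge
    have hsum := hSUM K h (fun v => #{s ∈ S | w s = v}) (by
      intro v _
      obtain ⟨r, q, p, h1, h2, h3, h4⟩ := hRUN K (3 ^ h) ((v : ℝ) / 9 ^ h) {s ∈ S | w s = v}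
        (by omega) hKlt
        (fun s hs => by
          have := (hS s (mem_filter.mp hs).1).1
          exact_mod_cast this)
        (fun s hs s' hs' => by
          obtain ⟨m1, m2⟩ := mem_filter.mp hs
          obtain ⟨m3, m4⟩ := mem_filter.mp hs'
          have := hcell s m1 s' m3 (m2.trans m4.symm)
          rwa [m2] at this)
      exact ⟨r, q, p, h1, h2, h3, h4⟩)
    have hfib : #S = ∑ v ∈ Dig (2 * h + 1), #{s ∈ S | w s = v} :=
      card_eq_sum_card_fiberwise fun s hs => hw s hs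
    calc #S = ∑ v ∈ Dig (2 * h + 1), #{s ∈ S | w s = v} := hfib
      _ ≤ W * 4 ^ h := hsum
      _ ≤ (W + (2 * K + 1) ^ 2) * 4 ^ h := Nat.mul_le_mul_right _ (Nat.le_add_right _ _)

end MahlerT6
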