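import Pool.Agent.Work.MP_48678a_t6.Defs
import Pool.Agent.Work.MP_48678a_t2.B_DIG

set_option autoImplicit false

namespace MahlerT6

open Finset

namespace XAP

lemma summable (ε : ℕ → ℕ) (hε : ∀ i, ε i ≤ 1) : Summable fun i => (ε i : ℝ) / (3 : ℝ) ^ i := by
  have hg : Summable fun i : ℕ => ((1 : ℝ) / 3) ^ i :=
    summable_geometric_of_lt_one (by norm_num) (by norm_num)
  refine Summable.of_nonneg_of_le (fun i => by positivity) (fun i => ?_) hg
  rw [one_div, inv_pow, div_eq_mul_inv]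
  have : (ε i : ℝ) ≤ 1 := by exact_mod_cast hε i
  exact mul_le_of_le_one_left (by positivity) this

lemma le (ε : ℕ → ℕ) (hε : ∀ i, ε i ≤ 1) : ∑' i, (ε i : ℝ) / (3 : ℝ) ^ i ≤ 3 / 2 := by
  have hg : Summable fun i : ℕ => ((1 : ℝ) / 3) ^ i :=
    summable_geometric_of_lt_one (by norm_num) (by norm_num)
  calc ∑' i, (ε i : ℝ) / (3 : ℝ) ^ i ≤ ∑' i : ℕ, ((1 : ℝ) / 3) ^ i := by
        refine (summable ε hε).tsum_le_tsum (fun i => ?_) hg
        rw [one_div, inv_pow, div_eq_mul_inv]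
        have : (ε i : ℝ) ≤ 1 := by exact_mod_cast hε i
        exact mul_le_of_le_one_left (by positivity) this
    _ = 3 / 2 := by
        rw [tsum_geometric_of_lt_one (by norm_num) (by norm_num)]
        norm_num

end XAP

theorem p_XAP : Stmt_XAP := by
  classical
  rintro x ⟨ε, hε, rfl⟩
  have h0 : 0 ≤ ∑' i, (ε i : ℝ) / (3 : ℝ) ^ i := tsum_nonneg fun i => by positivity
  have h1 := XAP.le ε hε
  refine ⟨h0, h1, fun m => ?_⟩
  obtain ⟨A, hA, hA1, hA2⟩ := MahlerT2.p_DIG (∑' i, (ε i : ℝ) / (3 : ℝ) ^ i)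
    ⟨0, ε, hε, by rw [zpow_zero, one_mul]⟩ m
  have h3 : (0 : ℝ) < 3 ^ m := by positivity
  refine ⟨A, ?_, ?_, ?_⟩
  · rw [Dig, mem_filter, mem_range]
    refine ⟨?_, hA⟩
    have h2 : (A : ℝ) < ((3 ^ (m + 1) : ℕ) : ℝ) := by
      push_cast
      rw [pow_succ]
      nlinarith
    exact_mod_cast h2
  · rw [div_le_iff₀ h3, mul_comm]
    exact hA1
  · rw [le_div_iff₀ h3, mul_comm]
    exact hA2

end MahlerT6
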