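import Pool.Agent.Work.MP_48678a_t6.B_DGC
import Pool.Agent.Work.MP_48678a_t6.B_XAP
import Pool.Agent.Work.MP_48678a_t6.B_RAT
import Pool.Agent.Work.MP_48678a_t6.B_RUN
import Pool.Agent.Work.MP_48678a_t6.B_BIJ
import Pool.Agent.Work.MP_48678a_t6.B_SUM
import Pool.Agent.Work.MP_48678a_t6.B_TWO
import Pool.Agent.Work.MP_48678a_t6.B_POL

set_option autoImplicit false

namespace MahlerT6

/-- All blocks together. -/
theorem all : Stmt_POL := by
  have hBIJ : Stmt_BIJ := p_BIJ p_DGC p_RAT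
  have hSUM : Stmt_SUM := p_SUM p_DGC hBIJ
  have hTWO : Stmt_TWO := p_TWO p_XAP p_RUN hSUM
  exact p_POL hTWO p_XAP

end MahlerT6
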