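import Pool.Agent.Work.MP_48678a_t6.Defs

/-! # Block DGC (helper6): digits -/

set_option autoImplicit false

namespace MahlerT6

open Finset

theorem DGC_mem (n w : ℕ) : w ∈ Dig n ↔ w < 3 ^ n ∧ ∀ i : ℕ, w / 3 ^ i % 3 ≤ 1 := by
  classical
  unfold Dig
  simp only [mem_filter, mem_range]

theorem DGC_div (n r w : ℕ) (h : w ∈ Dig (n + r)) : w / 3 ^ r ∈ Dig n := by
  rw [DGC_mem] at h ⊢
  refine ⟨?_, fun i => ?_⟩
  · apply Nat.div_lt_of_lt_mul
    rw [← pow_add, add_comm r n]
    exact h.1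
  · rw [Nat.div_div_eq_div_mul, ← pow_add]
    exact h.2 (r + i)

theorem DGC_mod (r w : ℕ) (h : ∀ i : ℕ, w / 3 ^ i % 3 ≤ 1) : w % 3 ^ r ∈ Dig r := by
  rw [DGC_mem]
  refine ⟨Nat.mod_lt _ (by positivity), fun i => ?_⟩
  rcases lt_or_ge i r with hi | hi
  · have e : 3 ^ r = 3 ^ i * 3 ^ (r - i) := by
      rw [← pow_add]
      congr 1
      omega
    rw [e, Nat.mod_mul_right_div_self, Nat.mod_mod_of_dvd _ (dvd_pow_self 3 (by omega))]
    exact h i
  · have h1 : w % 3 ^ r < 3 ^ i :=
      lt_of_lt_of_le (Nat.mod_lt _ (by positivity)) (Nat.pow_le_pow_right (by norm_num) hi)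
    rw [Nat.div_eq_of_lt h1]
    norm_num

theorem DGC_card (n : ℕ) : #(Dig n) ≤ 2 ^ n := by
  induction n with
  | zero =>
    rw [pow_zero]
    apply Finset.card_le_one.2
    intro a ha b hb
    rw [DGC_mem, pow_zero] at ha hb
    omega
  | succ n ih =>
    calc #(Dig (n + 1)) ≤ #(Dig n ×ˢ range 2) := by
          apply Finset.card_le_card_of_injOn (fun w => (w / 3, w % 3))
          · intro w hw
            have hw' : w ∈ Dig (n + 1) := hw
            have h1 := DGC_div n 1 w hw'
            rw [pow_one] at h1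
            have h2 := ((DGC_mem _ _).1 hw').2 0
            rw [pow_zero, Nat.div_one] at h2
            show (w / 3, w % 3) ∈ ((Dig n ×ˢ range 2 : Finset (ℕ × ℕ)) : Set (ℕ × ℕ))
            rw [Finset.mem_coe, mem_product, mem_range]
            exact ⟨h1, by show w % 3 < 2; omega⟩
          · intro a _ b _ hab
            have h1 : a / 3 = b / 3 := congrArg Prod.fst hab
            have h2 : a % 3 = b % 3 := congrArg Prod.snd hab
            omega
      _ = #(Dig n) * 2 := by rw [card_product, card_range]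
      _ ≤ 2 ^ n * 2 := Nat.mul_le_mul_right _ ih
      _ = 2 ^ (n + 1) := (pow_succ 2 n).symm

theorem p_DGC : Stmt_DGC := by
  refine ⟨DGC_card, DGC_div, fun n r v => ?_⟩
  refine le_trans ?_ (DGC_card r)
  apply Finset.card_le_card_of_injOn (fun w => w % 3 ^ r)
  · intro w hw
    have hw' := Finset.mem_coe.1 hw
    rw [mem_filter] at hw'
    exact Finset.mem_coe.2 (DGC_mod r w ((DGC_mem _ _).1 hw'.1).2)
  · intro a ha b hb hab
    have ha' := (mem_filter.1 (Finset.mem_coe.1 ha)).2
    have hb' := (mem_filter.1 (Finset.mem_coe.1 hb)).2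
    have h2 : a % 3 ^ r = b % 3 ^ r := hab
    rw [← Nat.div_add_mod a (3 ^ r), ← Nat.div_add_mod b (3 ^ r), ha', hb', h2]

end MahlerT6
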