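import Mathlib

/-!
# Interface: polynomials with a root in the Cantor set of Mahler's problem (MP_48678a_nt, T6)

THEOREM T6. For every `D ≥ 1` there is `C` such that for all `H ≥ 1` at most
`C * H ^ (D - 1 + 2 * log 2 / log 3)` integer polynomials of degree at most `D` and height at most
`H` have a root `x = ∑ ε i / 3 ^ i` with `ε i ∈ {0, 1}` (all polynomials: about `H ^ (D + 1)`).

Every block `X` is a proposition `Stmt_X`; a block file proves `theorem p_X : Stmt_X`.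
-/

set_option autoImplicit false

namespace MahlerT6

open Finset

/-- The numbers of Mahler's problem. -/
def IsX (x : ℝ) : Prop := ∃ ε : ℕ → ℕ, (∀ i, ε i ≤ 1) ∧ x = ∑' i, (ε i : ℝ) / (3 : ℝ) ^ i

open scoped Classical in
/-- The natural numbers below `3 ^ n` all of whose ternary digits are `0` or `1`. -/
noncomputable def Dig (n : ℕ) : Finset ℕ := {w ∈ range (3 ^ n) | ∀ i : ℕ, w / 3 ^ i % 3 ≤ 1}

/-- The cell numbers `w` (`2 h + 1` digits) such that `w / 9 ^ h` is within `K / 3 ^ (h + i + j)` of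
a fraction with a denominator in `[3 ^ j, 3 ^ (j + 1))`. -/
def InB (K : ℝ) (h i j w : ℕ) : Prop := ∃ (q : ℕ) (p : ℤ), 3 ^ j ≤ q ∧ q < 3 ^ (j + 1) ∧
  |(w : ℝ) / 9 ^ h - p / q| ≤ K / 3 ^ (h + i + j)

noncomputable instance (K : ℝ) (h i j : ℕ) : DecidablePred (InB K h i j) :=
  fun _ => Classical.dec _

/-! ## Blocks -/

/-- DGC: digits. Proof: `w ∈ Dig (n + r)` is determined by `w / 3 ^ r ∈ Dig n` and
`w % 3 ^ r ∈ Dig r` (digits of `w / 3 ^ r`: `Nat.div_div_eq_div_mul`; digits of `w % 3 ^ r`: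
`w % 3 ^ r / 3 ^ i % 3 = w / 3 ^ i % 3` for `i < r` and `0` for `i ≥ r`). For the first part:
`#(Dig (n + 1)) ≤ 2 * #(Dig n)` by `w ↦ (w / 3, w % 3)`. -/
def Stmt_DGC : Prop := (∀ n : ℕ, #(Dig n) ≤ 2 ^ n) ∧
  (∀ n r w : ℕ, w ∈ Dig (n + r) → w / 3 ^ r ∈ Dig n) ∧
  ∀ n r v : ℕ, #{w ∈ Dig (n + r) | w / 3 ^ r = v} ≤ 2 ^ r

/-- XAP: approximation of `x`. Proof: `w = ∑ i ≤ m, ε i * 3 ^ (m - i)`, the rest
`3 ^ m * ∑' i > m, ε i / 3 ^ i` is in `[0, 1 / 2]` (geometric series,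
`Summable.sum_add_tsum_nat_add`); `w ∈ Dig (m + 1)` by induction on `m`
(`w_(m+1) = 3 * w_m + ε (m + 1)`). The block DIG of `Pool.Agent.Work.MP_48678a_t2` is very similar
(it can be imported: `MahlerT2.p_DIG`, with `A < 3 ^ (m + 1)` because `x ≤ 3 / 2`). -/
def Stmt_XAP : Prop := ∀ x : ℝ, IsX x → 0 ≤ x ∧ x ≤ 3 / 2 ∧ ∀ m : ℕ, ∃ w ∈ Dig (m + 1),
  (w : ℝ) / 3 ^ m ≤ x ∧ x ≤ (w + 1 / 2) / 3 ^ m

/-- RAT: rational numbers with denominators less than `Q` in an interval. Proof: two different ones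
differ by at least `1 / Q ^ 2`; so `ρ ↦ ⌊(ρ - x + s) * Q ^ 2⌋` is injective on `G` (if
two values agree the difference is less than `1 / Q ^ 2`) with values in `[0, 2 * s * Q ^ 2]`. (The
block SEP of `Pool.Agent.Work.MP_48678a_t2` is similar.) -/
def Stmt_RAT : Prop := ∀ (G : Finset ℚ) (Q : ℕ) (x s : ℝ), 0 ≤ s → (∀ ρ ∈ G, ρ.den < Q) →
  (∀ ρ ∈ G, |(ρ : ℝ) - x| ≤ s) → (#G : ℝ) ≤ 2 * s * (Q : ℝ) ^ 2 + 1

/-- RUN: many lattice points in a thin strip. Proof: the classes of `⌊2 * K * a / H⌋` (`a` the first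
coordinate, `|a| ≤ H`): at most `4 * K + 1` values, so some class `C` has `r + 1` elements with
`#S ≤ (4 * K + 1) * (r + 1)`. (If `S` is empty take `r = 0`, `q = 1`, `p = 0`.) In a class
`|a - a'| < H / (2 * K)`. Two different elements of `S` have different `a` (if `a = a'` then
`|b - b'| ≤ K / H < 1`). Let `s₀` be the element of `C` with the smallest `a` and
`(u, v) = s - s₀` for `s ∈ C`; `|u * x + v| ≤ K / H`. For two of them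
`|u * v' - u' * v| = |u * (u' * x + v') - u' * (u * x + v)| ≤ (u + u') * K / H < 1`, so
`u * v' = u' * v`. If `r ≥ 1` take one `(u₁, v₁)` with `u₁ > 0`, `g = gcd (u₁, v₁)`, `q = u₁ / g`,
`p = - v₁ / g`; then every `(u, v) = t * (q, -p)` with `t ≥ 0`, and different elements have different
`t`, so some `t ≥ r`; hence `r * q ≤ u ≤ 2 * H` and `r * |q * x - p| ≤ |u * x + v| ≤ K / H`. -/
def Stmt_RUN : Prop := ∀ (K : ℕ) (H x : ℝ) (S : Finset (ℤ × ℤ)), 1 ≤ K → (K : ℝ) < H →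
  (∀ s ∈ S, |(s.1 : ℝ)| ≤ H) →
  (∀ s ∈ S, ∀ s' ∈ S, |((s.1 : ℝ) - s'.1) * x + ((s.2 : ℝ) - s'.2)| ≤ K / H) →
  ∃ (r q : ℕ) (p : ℤ), 1 ≤ q ∧ #S ≤ (4 * K + 1) * (r + 1) ∧ (r : ℝ) * q ≤ 2 * H ∧
    r * |q * x - p| ≤ K / H

/-- BIJ: few cells near fractions (uses DGC, RAT). Proof: `r = h + i + j ≤ 2 h`, `2 j ≤ r`. For
`w ∈ Dig (2 h + 1)` let `v = w / 3 ^ (2 h - r) ∈ Dig (r + 1)`; `|w / 9 ^ h - v / 3 ^ r| ≤ 1 / 3 ^ r`,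
and `v` comes from at most `2 ^ (2 h - r)` numbers `w`. If `InB K h i j w`, choose `p / q`; then
`|v / 3 ^ r - p / q| ≤ (K + 1) / 3 ^ r`: a rational number `ρ = p / q` is chosen for at most
`2 * K + 3` numbers `v`. With `v' = v / 3 ^ (r - 2 j) ∈ Dig (2 j + 1)` (at most `2 ^ (2 j + 1)`
values) `|v' / 9 ^ j - ρ| ≤ (K + 2) / 9 ^ j`, and for given `v'` there are at most
`2 * (K + 2) / 9 ^ j * (3 ^ (j + 1)) ^ 2 + 1 = 18 * K + 37` rationals `ρ` by RAT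
(`ρ.den ≤ q < 3 ^ (j + 1)`). Total: `2 ^ (2 h - r) * (2 K + 3) * 2 ^ (2 j + 1) * (18 K + 37)`, and
`2 h - r + 2 j + 1 = h - i + j + 1`. -/
def Stmt_BIJ : Prop := ∀ (K h i j : ℕ), i + j ≤ h →
  #{w ∈ Dig (2 * h + 1) | InB K h i j w} ≤ (2 * K + 3) * (18 * K + 37) * 2 ^ (h + j + 1 - i)

/-- SUM: the sum over the cells (uses DGC, BIJ). Proof: `0 < n w` gives `r w`; the cells with
`r w = 0` contribute `(4 K + 1) * #Dig ≤ (4 K + 1) * 2 ^ (2 h + 1)`. If `r w ≥ 1` let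
`3 ^ i ≤ r w < 3 ^ (i + 1)`, `3 ^ j ≤ q < 3 ^ (j + 1)` (`Nat.log 3`); `3 ^ (i + j) ≤ 2 * 3 ^ h` gives
`i + j ≤ h`, and `|w / 9 ^ h - p / q| ≤ K / (3 ^ h * r * q) ≤ K / 3 ^ (h + i + j)`, so
`InB K h i j w` and `n w ≤ (4 K + 1) * 2 * 3 ^ (i + 1)`. So
`∑ n w ≤ (4 K + 1) * 2 * 4 ^ h + (4 K + 1) * 6 * ∑ i, 3 ^ i * ∑ j ≤ h - i, #B_{i j}`, with
`∑ j ≤ h - i, 2 ^ (h + j + 1 - i) ≤ 4 * 4 ^ (h - i)` and `∑ i, 3 ^ i * 4 ^ (h - i) ≤ 4 * 4 ^ h`. -/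
def Stmt_SUM : Prop := ∀ (K h : ℕ) (n : ℕ → ℕ),
  (∀ w ∈ Dig (2 * h + 1), ∃ (r q : ℕ) (p : ℤ), 1 ≤ q ∧ n w ≤ (4 * K + 1) * (r + 1) ∧
    (r : ℝ) * q ≤ 2 * 3 ^ h ∧ r * |q * ((w : ℝ) / 9 ^ h) - p| ≤ K / 3 ^ h) →
  ∑ w ∈ Dig (2 * h + 1), n w ≤ (4 * K + 1) * (2 + 96 * ((2 * K + 3) * (18 * K + 37))) * 4 ^ h

/-- TWO: two varying coefficients (uses XAP, RUN, SUM). Proof: `K = L + 1`. If `3 ^ h ≤ K` then
`#S ≤ (2 * 3 ^ h + 1) ^ 2 ≤ (2 * K + 1) ^ 2`. Otherwise choose for `s ∈ S` a root `x s` and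
`w s ∈ Dig (2 h + 1)` by XAP with `m = 2 h` (`3 ^ (2 h) = 9 ^ h`). If `w s = w s' = w`, then,
with `z = w / 9 ^ h`, `|(a - a') * z + (b - b')| ≤ |a| * |z - x s| + |a'| * |z - x s'| +
|R (x s) - R (x s')| ≤ 3 ^ h / 9 ^ h + L * 3 ^ h / 9 ^ h = K / 3 ^ h`. RUN with `H = 3 ^ h` for the
elements of `S` with `w s = w`, then SUM with `n w` their number
(`Finset.card_eq_sum_card_fiberwise`). -/
def Stmt_TWO : Prop := ∀ L : ℕ, ∃ C : ℕ, ∀ (h : ℕ) (R : ℝ → ℝ),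
  (∀ x y : ℝ, 0 ≤ x → x ≤ 3 / 2 → 0 ≤ y → y ≤ 3 / 2 → |R x - R y| ≤ L * 3 ^ h * |x - y|) →
  ∀ S : Finset (ℤ × ℤ), (∀ s ∈ S, |s.1| ≤ 3 ^ h ∧ |s.2| ≤ 3 ^ h ∧
    ∃ x : ℝ, IsX x ∧ R x + s.1 * x + s.2 = 0) → #S ≤ C * 4 ^ h

/-- POL: the theorem (uses TWO, XAP). Proof: `3 ^ (h - 1) < H ≤ 3 ^ h` (`h = Nat.clog 3 H`), so
`3 ^ h ≤ 3 * H`. The polynomials with given coefficients `c 2, ..., c D` (at most
`(2 * H + 1) ^ (D - 1) ≤ (3 * H) ^ (D - 1)` choices) correspond to pairs `(c 1, c 0)`; TWO with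
`R x = ∑ i in 2..D, c i * x ^ i`, `L = D ^ 2 * 2 ^ D`
(`|x ^ i - y ^ i| ≤ i * 2 ^ (i - 1) * |x - y|` on `[0, 3 / 2]`) gives at most
`C * 4 ^ h = C * (3 ^ h) ^ (2 * θ) ≤ C * (3 * H) ^ (2 * θ)`, `θ = log 2 / log 3`. -/
def Stmt_POL : Prop := ∀ D : ℕ, 1 ≤ D → ∃ C : ℝ, ∀ H : ℕ, 1 ≤ H →
  ({P : Polynomial ℤ | P.natDegree ≤ D ∧ (∀ i, |P.coeff i| ≤ H) ∧
    ∃ x : ℝ, IsX x ∧ Polynomial.aeval x P = 0}.ncard : ℝ) ≤
    C * (H : ℝ) ^ ((D : ℝ) - 1 + 2 * (Real.log 2 / Real.log 3))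

end MahlerT6
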